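import Mathlib
import Pool.Agent.Helper89.BI.Main

set_option autoImplicit false

namespace Pool.Agent.Results.MP_7246d9_al.InnerModulo

universe u

/-- Let `n` be odd and squarefree, `X` a type with at least two elements and `G = B(X, n)` the free
Burnside group. For every automorphism `φ` of `G` with `φ ^ n = 1` and
`b^φ b^(φ^2) ⋯ b^(φ^n) = 1` for all `b` there is one `g ∈ G` such that `φ` agrees with
`b ↦ g⁻¹ b g` modulo `γ_p(G) G^p` for every prime divisor `p` of `n`. -/
theorem result (X : Type u) [Nontrivial X] (n : ℕ) (hodd : Odd n) (hsq : Squarefree n)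
    (φ : MulAut (FreeGroup X ⧸
      Subgroup.normalClosure (Set.range fun w : FreeGroup X => w ^ n)))
    (h1 : φ ^ n = 1)
    (h2 : ∀ b, ((List.range n).map fun i => (φ ^ (i + 1)) b).prod = 1) :
    ∃ g : FreeGroup X ⧸ Subgroup.normalClosure (Set.range fun w : FreeGroup X => w ^ n),
      ∀ p, p.Prime → p ∣ n → ∀ b, (g⁻¹ * b * g)⁻¹ * φ b ∈
        (⊤ : Subgroup (FreeGroup X ⧸
          Subgroup.normalClosure (Set.range fun w : FreeGroup X => w ^ n))).lowerCentralSeries
            (p - 1) ⊔ Subgroup.closure (Set.range fun y => y ^ p) :=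
  Pool.Agent.Helper89.BI.inner_modulo (X := X) hsq hodd
    (Pool.Agent.Helper13.Spl.Splits.of_right h1 h2)

end Pool.Agent.Results.MP_7246d9_al.InnerModulo
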