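import Pool.Agent.Helper17.SPL.Final

set_option autoImplicit false

namespace Pool.Agent.Results.MP_7246d9_al.SplittingInner

universe u

/-- There is `N` such that for every odd `n ≥ N` and every type `X` with at least two elements
(finite or infinite), every automorphism `φ` of the free Burnside group `B(X, n)` such that
`φ ^ n = 1` and `b^φ b^(φ^2) ⋯ b^(φ^n) = 1` for all `b` is inner. -/
theorem result : ∃ N : ℕ, ∀ n : ℕ, N ≤ n → Odd n → ∀ (X : Type u) [Nontrivial X]
    (φ : MulAut (FreeGroup X ⧸
      Subgroup.normalClosure (Set.range fun w : FreeGroup X => w ^ n))),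
    φ ^ n = 1 →
    (∀ b, ((List.range n).map fun i => (φ ^ (i + 1)) b).prod = 1) →
    ∃ g : FreeGroup X ⧸ Subgroup.normalClosure (Set.range fun w : FreeGroup X => w ^ n),
      ∀ b, φ b = g⁻¹ * b * g := by
  obtain ⟨N, hN⟩ := Pool.Agent.Helper17.SPL.fin_main.{u}
  exact ⟨N, fun n hn hodd X _ φ h1 h2 => hN n hn hodd X inferInstance φ h1 h2⟩

end Pool.Agent.Results.MP_7246d9_al.SplittingInner
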